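import Pool.Agent.helper9.HX.Spec

set_option autoImplicit false

namespace Pool.Agent.helper9.HX

open Finset
open scoped Classical
open Pool.Agent.helper65.HC (V IsEig IsTop lam)
open Pool.Agent.helper9.HQ (Fam Dn E N Le hi c)
open Pool.Agent.helper9

theorem HB (hRES : RES_stmt) (hEQ1 : EQ1_stmt) : HB_stmt := by
  intro d m U l f φ hS hm hφ hφ0
  obtain ⟨hl0, -⟩ := hEQ1 d U l f hS.pf
  have hmr : (1 : ℝ) ≤ m := by exact_mod_cast hm
  have hm0 : (0 : ℝ) ≤ m := by linarith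
  have hL0 : 0 ≤ √(9 / 20 * (m : ℝ)) := Real.sqrt_nonneg _
  have hL2 : √(9 / 20 * (m : ℝ)) ^ 2 = 9 / 20 * m := Real.sq_sqrt (by positivity)
  have hr0 : 0 ≤ √((m : ℝ) / 2) := Real.sqrt_nonneg _
  have hr2 : √((m : ℝ) / 2) ^ 2 = m / 2 := Real.sq_sqrt (by positivity)
  have hlr : √((m : ℝ) / 2) ≤ l := by
    apply le_of_sq_le_sq _ hl0
    rw [hr2]
    exact hS.half
  have hLr : √(9 / 20 * (m : ℝ)) ≤ 9487 / 10000 * √((m : ℝ) / 2) := by
    apply le_of_sq_le_sq _ (by positivity)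
    rw [mul_pow, hL2, hr2]
    nlinarith
  have hLl : √(9 / 20 * (m : ℝ)) ≤ l := by linarith
  have hR := hRES d U l f _ φ hS.pf hφ hφ0 hS.form hLl
  have hd : 513 / 10000 * √((m : ℝ) / 2) ≤ l - √(9 / 20 * (m : ℝ)) := by linarith
  have hd2 : (m : ℝ) / 760 ≤ (l - √(9 / 20 * (m : ℝ))) ^ 2 := by
    have h1 : (513 / 10000 * √((m : ℝ) / 2)) ^ 2 ≤ (l - √(9 / 20 * (m : ℝ))) ^ 2 :=
      pow_le_pow_left₀ (by positivity) hd 2
    rw [mul_pow, hr2] at h1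
    linarith
  have hN : 0 ≤ N (hi U) f := Finset.sum_nonneg fun x _ => sq_nonneg _
  have h2 : (m : ℝ) / 760 * N (hi U) f ≤ 9 * φ ^ 2 * (hi U).card :=
    le_trans (mul_le_mul_of_nonneg_right hd2 hN) hR
  have h3 : 0 ≤ φ ^ 2 * ((hi U).card : ℝ) := by positivity
  nlinarith

end Pool.Agent.helper9.HX
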