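import Pool.Agent.helper9.HX.Spec

set_option autoImplicit false

namespace Pool.Agent.helper9.HX

open Finset
open scoped Classical
open Pool.Agent.helper65.HC (V IsEig IsTop lam)
open Pool.Agent.helper9.HQ (Fam Dn E N Le hi c)
open Pool.Agent.helper9

theorem HVA_cs {d : ℕ} (U W : Fam d) (f : Finset (Fin d) → ℝ) (hW : W ⊆ hi U) :
    (∑ y ∈ W, f y) ^ 2 ≤ (W.card : ℝ) * N (hi U) f := by
  have h1 : (∑ y ∈ W, f y) ^ 2 ≤ (W.card : ℝ) * ∑ y ∈ W, f y ^ 2 := sq_sum_le_card_mul_sum_sq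
  have h2 : ∑ y ∈ W, f y ^ 2 ≤ N (hi U) f :=
    Finset.sum_le_sum_of_subset_of_nonneg hW fun _ _ _ => sq_nonneg _
  exact h1.trans (mul_le_mul_of_nonneg_left h2 (Nat.cast_nonneg _))

theorem HVA_sub {d : ℕ} (U : Fam d) (j : Fin d) : thr j U ⊆ hi U := by
  intro y hy
  rw [thr, Finset.mem_filter] at hy
  rw [hi, Finset.mem_filter]
  exact ⟨hy.1, by omega⟩

theorem HVA (hHB : HB_stmt) (hCNA : CNA_stmt) (hEQ1 : EQ1_stmt) (hEQS : EQS_stmt) :
    HVA_stmt := by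
  refine ⟨4320000, fun m hm d U l f o hS hdg j hj => ?_⟩
  have hmr : (4320000 : ℝ) ≤ m := by exact_mod_cast hm
  have hm0 : (0 : ℝ) < m := by linarith
  obtain ⟨hl0, -, -, -, -, hl2⟩ := hEQ1 d U l f hS.pf
  rw [hS.card] at hl2
  -- the maximum
  obtain ⟨j₀, hj₀, hmax⟩ := Finset.exists_max_image (univ.filter fun j : Fin d => j ≠ o)
    (fun j => f {j}) ⟨j, Finset.mem_filter.mpr ⟨Finset.mem_univ _, hj⟩⟩
  rw [Finset.mem_filter] at hj₀
  have hjle : f {j} ≤ f {j₀} := hmax j (Finset.mem_filter.mpr ⟨Finset.mem_univ _, hj⟩)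
  have hφ0 : 0 ≤ f {j₀} := hS.pf.nn _
  have hpair : ∀ x ∈ U, x.card = 2 → f x ≤ f {j₀} := by
    intro x hx hx2
    obtain ⟨k, hkx, hko⟩ : ∃ k ∈ x, k ≠ o := by
      by_contra hcon
      push Not at hcon
      have hsub : x ⊆ {o} := fun k hk => Finset.mem_singleton.mpr (hcon k hk)
      have := Finset.card_le_card hsub
      rw [hx2, Finset.card_singleton] at this
      omega
    have h1 : f x ≤ f {k} := hS.pf.mono x {k} (Finset.singleton_subset_iff.mpr hkx)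
    exact h1.trans (hmax k (Finset.mem_filter.mpr ⟨Finset.mem_univ _, hko⟩))
  have hH := hHB d m U l f (f {j₀}) hS (by omega) hpair hφ0
  have hhi : ((hi U).card : ℝ) ≤ m := by
    have h1 : (hi U).card ≤ U.card := Finset.card_le_card (Finset.filter_subset _ _)
    rw [hS.card] at h1
    exact_mod_cast h1
  have hN0 : 0 ≤ N (hi U) f := Finset.sum_nonneg fun x _ => sq_nonneg _
  have hN : N (hi U) f ≤ 7500 * f {j₀} ^ 2 := by
    have h1 : (m : ℝ) * N (hi U) f ≤ m * (7500 * f {j₀} ^ 2) := by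
      refine hH.trans ?_
      have := mul_le_mul_of_nonneg_left hhi (by positivity : (0 : ℝ) ≤ 7500 * f {j₀} ^ 2)
      linarith
    exact le_of_mul_le_mul_left h1 hm0
  have hth : ((thr j₀ U).card : ℝ) ≤ m := by
    have h1 : (thr j₀ U).card ≤ U.card := Finset.card_le_card (Finset.filter_subset _ _)
    rw [hS.card] at h1
    exact_mod_cast h1
  have hcs := HVA_cs U (thr j₀ U) f (HVA_sub U j₀)
  have hS3 : ∑ y ∈ thr j₀ U, f y ≤ m / 24 * f {j₀} := by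
    apply le_of_sq_le_sq _ (by positivity)
    refine hcs.trans ?_
    have h1 : ((thr j₀ U).card : ℝ) * N (hi U) f ≤ m * (7500 * f {j₀} ^ 2) :=
      mul_le_mul hth hN hN0 hm0.le
    refine h1.trans ?_
    have h2 : 0 ≤ f {j₀} ^ 2 := sq_nonneg _
    have h3 : (m : ℝ) * 7500 ≤ (m / 24) ^ 2 := by nlinarith
    nlinarith [mul_le_mul_of_nonneg_right h3 h2]
  have hE := hEQS d U l f j₀ hS.pf hl0
  have hdg0 : 3 * (dg j₀ U : ℝ) + 1 ≤ m := by exact_mod_cast hdg j₀ hj₀.2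
  have hlow : (m : ℝ) / 6 * f {j₀} ≤ (l ^ 2 - dg j₀ U) * f {j₀} := by
    apply mul_le_mul_of_nonneg_right _ hφ0
    have := hS.half
    linarith
  have hmf : (m : ℝ) * f {j₀} ≤ 24 * l := by nlinarith
  have h1 : ((m : ℝ) * f {j₀}) ^ 2 ≤ (24 * l) ^ 2 := pow_le_pow_left₀ (by positivity) hmf 2
  have h2 : (m : ℝ) * (m * f {j₀} ^ 2) ≤ m * 1152 := by nlinarith
  have h3 : (m : ℝ) * f {j₀} ^ 2 ≤ 1152 := le_of_mul_le_mul_left h2 hm0
  have h4 : f {j} ^ 2 ≤ f {j₀} ^ 2 := pow_le_pow_left₀ (hS.pf.nn _) hjle 2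
  exact (mul_le_mul_of_nonneg_left h4 hm0.le).trans h3

end Pool.Agent.helper9.HX
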