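import Pool.Agent.helper9.HX.Spec

set_option autoImplicit false

namespace Pool.Agent.helper9.HX

open Finset
open scoped Classical
open Pool.Agent.helper65.HC (V IsEig IsTop lam)
open Pool.Agent.helper9.HQ (Fam Dn E N Le hi c)
open Pool.Agent.helper9

theorem HVB_cs {d : ℕ} (U W : Fam d) (f : Finset (Fin d) → ℝ) (hW : W ⊆ hi U) :
    (∑ y ∈ W, f y) ^ 2 ≤ (W.card : ℝ) * N (hi U) f := by
  have h1 : (∑ y ∈ W, f y) ^ 2 ≤ (W.card : ℝ) * ∑ y ∈ W, f y ^ 2 := sq_sum_le_card_mul_sum_sq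
  have h2 : ∑ y ∈ W, f y ^ 2 ≤ N (hi U) f :=
    Finset.sum_le_sum_of_subset_of_nonneg hW fun _ _ _ => sq_nonneg _
  exact h1.trans (mul_le_mul_of_nonneg_left h2 (Nat.cast_nonneg _))

theorem HVB_sub {d : ℕ} (U : Fam d) (x : Finset (Fin d)) : four x U ⊆ hi U := by
  intro y hy
  rw [four, Finset.mem_filter] at hy
  rw [hi, Finset.mem_filter]
  exact ⟨hy.1, by omega⟩

theorem HVB (hHB : HB_stmt) (hCNA : CNA_stmt) (hCNP : CNP_stmt) (hEQ1 : EQ1_stmt)
    (hEQP : EQP_stmt) : HVB_stmt := by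
  intro d m U l f o hS hm hj
  have hmr : (1 : ℝ) ≤ m := by exact_mod_cast hm
  have hm0 : (0 : ℝ) < m := by linarith
  obtain ⟨hl0, -, -, -, -, hl2⟩ := hEQ1 d U l f hS.pf
  rw [hS.card] at hl2
  -- part 1
  have hP1 : ∀ x ∈ U, x.card = 2 → m * f x ^ 2 ≤ 1152 := by
    intro x hx hx2
    obtain ⟨j, hjx, hjo⟩ : ∃ j ∈ x, j ≠ o := by
      by_contra hcon
      push Not at hcon
      have hsub : x ⊆ {o} := fun j hj => Finset.mem_singleton.mpr (hcon j hj)
      have := Finset.card_le_card hsub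
      rw [hx2, Finset.card_singleton] at this
      omega
    have h1 : f x ≤ f {j} := hS.pf.mono x {j} (Finset.singleton_subset_iff.mpr hjx)
    have h2 : f x ^ 2 ≤ f {j} ^ 2 := pow_le_pow_left₀ (hS.pf.nn x) h1 2
    exact (mul_le_mul_of_nonneg_left h2 hm0.le).trans (hj j hjo)
  refine ⟨hP1, fun x hx hx2 hox => ?_⟩
  -- phi
  have hφ0 : 0 ≤ √(1152 / (m : ℝ)) := Real.sqrt_nonneg _
  have hφ2 : √(1152 / (m : ℝ)) ^ 2 = 1152 / m := Real.sq_sqrt (by positivity)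
  have hle : ∀ t : ℝ, 0 ≤ t → m * t ^ 2 ≤ 1152 → t ≤ √(1152 / (m : ℝ)) := by
    intro t ht h
    apply le_of_sq_le_sq _ hφ0
    rw [hφ2, le_div_iff₀ hm0]
    linarith
  have hH := hHB d m U l f (√(1152 / (m : ℝ))) hS hm
    (fun y hy hy2 => hle _ (hS.pf.nn y) (hP1 y hy hy2)) hφ0
  rw [hφ2] at hH
  have hhi : ((hi U).card : ℝ) ≤ m := by
    have h1 : (hi U).card ≤ U.card := Finset.card_le_card (Finset.filter_subset _ _)
    rw [hS.card] at h1
    exact_mod_cast h1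
  have hN0 : 0 ≤ N (hi U) f := Finset.sum_nonneg fun x _ => sq_nonneg _
  have hN : (m : ℝ) * N (hi U) f ≤ 8640000 := by
    refine hH.trans ?_
    have h1 := mul_le_mul_of_nonneg_left hhi (by positivity : (0 : ℝ) ≤ 7500 * (1152 / m))
    refine h1.trans (le_of_eq ?_)
    field_simp
    norm_num
  have hcn := hCNP d U x hS.pf.dn hx hx2
  rw [hS.card] at hcn
  have hup : 4 * ((up x U : ℝ) + 1) ≤ m := by exact_mod_cast hcn.1
  have hfo : 4 * ((four x U).card : ℝ) ≤ m := by exact_mod_cast hcn.2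
  have hcs := HVB_cs U (four x U) f (HVB_sub U x)
  have hS4 : ∑ y ∈ four x U, f y ≤ 1470 := by
    apply le_of_sq_le_sq _ (by norm_num)
    refine hcs.trans ?_
    have h1 : ((four x U).card : ℝ) * N (hi U) f ≤ (m / 4) * N (hi U) f :=
      mul_le_mul_of_nonneg_right (by linarith) hN0
    refine h1.trans ?_
    nlinarith
  have hE := hEQP d U l f x hS.pf hl0 hx hx2
  have hlj : ∀ j, j ≠ o → l * f {j} ≤ 48 := by
    intro j hjo
    apply le_of_sq_le_sq _ (by norm_num)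
    rw [mul_pow]
    have h1 := hj j hjo
    have h2 : 0 ≤ f {j} ^ 2 := sq_nonneg _
    nlinarith [mul_le_mul_of_nonneg_right hl2 h2]
  have hsum : l * ∑ i ∈ x, f {i} ≤ 96 := by
    rw [Finset.mul_sum]
    have h1 : ∑ i ∈ x, l * f {i} ≤ ∑ i ∈ x, (48 : ℝ) :=
      Finset.sum_le_sum fun i hi => hlj i (fun h => hox (h ▸ hi))
    rw [Finset.sum_const, hx2, two_nsmul] at h1
    linarith
  have hlow : (m : ℝ) / 4 * f x ≤ (l ^ 2 - up x U) * f x := by
    apply mul_le_mul_of_nonneg_right _ (hS.pf.nn x)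
    have := hS.half
    linarith
  nlinarith

end Pool.Agent.helper9.HX
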