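import Pool.Agent.helper9.HX.Spec

set_option autoImplicit false

namespace Pool.Agent.helper9.HX

open Finset
open scoped Classical
open Pool.Agent.helper65.HC (V IsEig IsTop lam)
open Pool.Agent.helper9.HQ (Fam Dn E N Le hi c)
open Pool.Agent.helper9

theorem P2_cs {d : ℕ} (U W : Fam d) (f : Finset (Fin d) → ℝ) (hW : W ⊆ hi U) :
    (∑ y ∈ W, f y) ^ 2 ≤ (W.card : ℝ) * N (hi U) f := by
  have h1 : (∑ y ∈ W, f y) ^ 2 ≤ (W.card : ℝ) * ∑ y ∈ W, f y ^ 2 := sq_sum_le_card_mul_sum_sq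
  have h2 : ∑ y ∈ W, f y ^ 2 ≤ N (hi U) f :=
    Finset.sum_le_sum_of_subset_of_nonneg hW fun _ _ _ => sq_nonneg _
  exact h1.trans (mul_le_mul_of_nonneg_left h2 (Nat.cast_nonneg _))

theorem P2_sub {d : ℕ} (U : Fam d) (x : Finset (Fin d)) : four x U ⊆ hi U := by
  intro y hy
  rw [four, Finset.mem_filter] at hy
  rw [hi, Finset.mem_filter]
  exact ⟨hy.1, by omega⟩

theorem P2 (hHB : HB_stmt) (hCNA : CNA_stmt) (hCNP : CNP_stmt) (hEQ1 : EQ1_stmt)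
    (hEQP : EQP_stmt) : P2_stmt := by
  refine ⟨480000, fun m hm d U l f hS x hx hx2 => ?_⟩
  have hmr : (480000 : ℝ) ≤ m := by exact_mod_cast hm
  obtain ⟨hl0, -, -, hls, -, -⟩ := hEQ1 d U l f hS.pf
  have hs2 : 0 ≤ s2 U f := Finset.sum_nonneg fun y _ => hS.pf.nn y
  -- the maximum
  obtain ⟨x₀, hx₀, hmax⟩ := Finset.exists_max_image (U.filter fun x => x.card = 2) f
    ⟨x, Finset.mem_filter.mpr ⟨hx, hx2⟩⟩
  rw [Finset.mem_filter] at hx₀
  have hxle : f x ≤ f x₀ := hmax x (Finset.mem_filter.mpr ⟨hx, hx2⟩)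
  have hφ0 : 0 ≤ f x₀ := hS.pf.nn x₀
  have hH := hHB d m U l f (f x₀) hS (by omega)
    (fun y hy hy2 => hmax y (Finset.mem_filter.mpr ⟨hy, hy2⟩)) hφ0
  have hcn := hCNP d U x₀ hS.pf.dn hx₀.1 hx₀.2
  rw [hS.card] at hcn
  have hup : 4 * ((up x₀ U : ℝ) + 1) ≤ m := by exact_mod_cast hcn.1
  have hfo : 4 * ((four x₀ U).card : ℝ) ≤ m := by exact_mod_cast hcn.2
  have hhi : ((hi U).card : ℝ) ≤ m := by
    have h1 : (hi U).card ≤ U.card := Finset.card_le_card (Finset.filter_subset _ _)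
    rw [hS.card] at h1
    exact_mod_cast h1
  have hN0 : 0 ≤ N (hi U) f := Finset.sum_nonneg fun x _ => sq_nonneg _
  have hN : N (hi U) f ≤ 7500 * f x₀ ^ 2 := by
    have h1 : (m : ℝ) * N (hi U) f ≤ m * (7500 * f x₀ ^ 2) := by
      refine hH.trans ?_
      have := mul_le_mul_of_nonneg_left hhi (by positivity : (0 : ℝ) ≤ 7500 * f x₀ ^ 2)
      linarith
    exact le_of_mul_le_mul_left h1 (by linarith)
  have hcs := P2_cs U (four x₀ U) f (P2_sub U x₀)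
  have hS4 : ∑ y ∈ four x₀ U, f y ≤ m / 16 * f x₀ := by
    apply le_of_sq_le_sq _ (by positivity)
    refine hcs.trans ?_
    have h1 : ((four x₀ U).card : ℝ) * N (hi U) f ≤ (m / 4) * (7500 * f x₀ ^ 2) :=
      mul_le_mul (by linarith) hN hN0 (by linarith)
    refine h1.trans ?_
    have h2 : 0 ≤ f x₀ ^ 2 := sq_nonneg _
    have h3 : (m : ℝ) / 4 * 7500 ≤ (m / 16) ^ 2 := by nlinarith
    nlinarith [mul_le_mul_of_nonneg_right h3 h2]
  have hE := hEQP d U l f x₀ hS.pf hl0 hx₀.1 hx₀.2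
  have hsum : l * ∑ i ∈ x₀, f {i} ≤ 2 * (1 + s2 U f) := by
    rw [Finset.mul_sum]
    have h1 : ∑ i ∈ x₀, l * f {i} ≤ ∑ i ∈ x₀, (1 + s2 U f) :=
      Finset.sum_le_sum fun i _ => hls i
    rw [Finset.sum_const, hx₀.2, two_nsmul] at h1
    linarith
  have hlow : (m : ℝ) / 4 * f x₀ ≤ (l ^ 2 - up x₀ U) * f x₀ := by
    apply mul_le_mul_of_nonneg_right _ hφ0
    have := hS.half
    linarith
  have hfin : (m : ℝ) * f x₀ ≤ 32 * (s2 U f + 1) := by
    nlinarith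
  exact (mul_le_mul_of_nonneg_left hxle (by linarith)).trans hfin

end Pool.Agent.helper9.HX
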